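import Pool.Agent.X244.SPP.Cross

set_option autoImplicit false

/-! Counting the primes `p` for which some multiple of `p q`, `q ≤ p ^ K`, passes. -/

namespace Pool.Agent.X244.SPP

open Finset Real Pool.Agent.H379R2.W Pool.Agent.W57.SW

/-- some number divisible by `p` and by a further prime `q ≤ p ^ K` passes for all primes up to `(log p) ^ A` -/
def BadP (A K : ℝ) (p : ℕ) : Prop :=
  p.Prime ∧ ∃ q : ℕ, q.Prime ∧ q ≠ p ∧ (q : ℝ) ≤ (p : ℝ) ^ K ∧ ∃ m : ℕ, 2 ≤ m ∧ p * q ∣ m ∧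
    ∀ b : ℕ, b.Prime → (b : ℝ) ≤ (log p) ^ A → Passes m b

open Classical in
/-- the covering of the set of bad primes -/
lemma cover {A A' K : ℝ} {V x y1 y2 : ℕ} {p : ℕ} (hK : 0 ≤ K) (hb : BadP A K p) (hpV : p ≤ V)
    (hx1 : V * V ≤ x) (hx2 : y1 ≤ x) (hx3 : y2 ≤ x) (hy2 : (V : ℝ) ^ K < y2 + 1)
    (hy1' : (V : ℝ) ^ (1 + K) < y1 + 1)
    (hl1 : (log x) ^ A' ≤ (log p) ^ A) (hl2 : 2 ≤ (log p) ^ A) :
    p ∈ (Dq A' x).filter (fun m => m ≤ V) ∪
      ((Dq A' x).filter (fun m => m ≤ y1 ∧ m.primeFactors.card ≤ 2)).biUnion (fun m => m.primeFactors) ∪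
      ((Dq A' x).filter (fun m => m ≤ y2 ∧ m.Prime ∧ m ≠ 2)).biUnion
        (fun q => (range (Nat.log 2 V + 1)).biUnion (fun t => PQ (opr ⌊(log x) ^ A'⌋₊) V q t)) := by
  obtain ⟨hp, q, hq, hqp, hqK, m, hm, hpq, hpass⟩ := hb
  have hpm : p ∣ m := (Dvd.intro _ rfl).trans hpq
  have hqm : q ∣ m := (Dvd.intro_left _ rfl).trans hpq
  have hp2 : p ≠ 2 := by
    rintro rfl
    exact not_dvd_of_passes hm hp hpm (hpass 2 Nat.prime_two (by exact_mod_cast hl2)) dvd_rfl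
  have hq2 : q ≠ 2 := by
    rintro rfl
    exact not_dvd_of_passes hm hq hqm (hpass 2 Nat.prime_two (by exact_mod_cast hl2)) dvd_rfl
  have hT : ∀ ℓ ∈ opr ⌊(log (x : ℝ)) ^ A'⌋₊, Passes m ℓ := by
    intro ℓ hℓ
    rw [mem_opr] at hℓ
    apply hpass ℓ hℓ.1
    have h1 : (ℓ : ℝ) ≤ (⌊(log (x : ℝ)) ^ A'⌋₊ : ℝ) := by exact_mod_cast hℓ.2.1
    exact h1.trans ((Nat.floor_le (rpow_nonneg (log_natCast_nonneg x) _)).trans hl1)
  have hp1 : (1 : ℝ) ≤ p := by exact_mod_cast hp.one_lt.le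
  have hV1 : (1 : ℝ) ≤ V := hp1.trans (by exact_mod_cast hpV)
  have hqV : (q : ℝ) ≤ (V : ℝ) ^ K :=
    hqK.trans (rpow_le_rpow (by linarith) (by exact_mod_cast hpV) hK)
  rcases lt_trichotomy (v2 p) (v2 q) with hv | hv | hv
  · -- `q` is in the thin set
    apply mem_union_right
    rw [mem_biUnion]
    have hqy : q ≤ y2 := by
      have h1 : (q : ℝ) < y2 + 1 := hqV.trans_lt hy2
      have h2 : q < y2 + 1 := by exact_mod_cast h1
      omega
    refine ⟨q, mem_filter.mpr ⟨?_, hqy, hq, hq2⟩, ?_⟩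
    · rw [mem_Dq]
      exact ⟨⟨hq.pos, hqy.trans hx3⟩, hq.odd_of_ne_two hq2, hq.prime.squarefree,
        fun ℓ hℓ => symbol_one (hT ℓ hℓ) hq hp hq2 hp2 hqm hpm hv⟩
    · rw [mem_biUnion]
      refine ⟨v2 p, ?_, ?_⟩
      · rw [mem_range, Nat.lt_succ_iff]
        have h1 : 2 ^ v2 p ∣ p - 1 := Nat.ordProj_dvd _ _
        have h2 : 2 ^ v2 p ≤ V := (Nat.le_of_dvd (by have := hp.two_le; omega) h1).trans (by omega)
        exact Nat.le_log_of_pow_le (by norm_num) h2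
      · rw [PQ, mem_filter, mem_Icc]
        exact ⟨⟨hp.pos, hpV⟩, hp, hp2, rfl, m, hm, hpm, hqm, hT⟩
  · apply mem_union_left
    apply mem_union_right
    rw [mem_biUnion]
    have hle : p * q ≤ y1 := by
      have h1 : ((p * q : ℕ) : ℝ) ≤ (V : ℝ) ^ (1 + K) := by
        rw [rpow_add (by linarith), rpow_one, Nat.cast_mul]
        exact mul_le_mul (by exact_mod_cast hpV) hqV (Nat.cast_nonneg _) (by linarith)
      have h2 : ((p * q : ℕ) : ℝ) < ((y1 + 1 : ℕ) : ℝ) := by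
        push_cast at h1 ⊢
        linarith
      have h3 : p * q < y1 + 1 := by exact_mod_cast h2
      omega
    refine ⟨p * q, mem_filter.mpr ⟨?_, hle, ?_⟩, ?_⟩
    · apply mul_mem hp hq hqp.symm hp2 hq2 (hle.trans hx2)
      intro ℓ hℓ
      exact mul_sym hm hp hq hpm (hT ℓ hℓ) (same_symbol (hT ℓ hℓ) hp hq hp2 hq2 hpm hqm hv)
    · rw [Nat.primeFactors_mul hp.ne_zero hq.ne_zero, hp.primeFactors, hq.primeFactors]
      exact (card_union_le _ _).trans (by simp)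
    · rw [Nat.mem_primeFactors]
      exact ⟨hp, Dvd.intro _ rfl, Nat.mul_ne_zero hp.ne_zero hq.ne_zero⟩
  · apply mem_union_left
    apply mem_union_left
    rw [mem_filter, mem_Dq]
    have h1 : V ≤ V * V := Nat.le_mul_self V
    exact ⟨⟨⟨hp.pos, (hpV.trans h1).trans hx1⟩, hp.odd_of_ne_two hp2, hp.prime.squarefree,
      fun ℓ hℓ => symbol_one (hT ℓ hℓ) hp hq hp2 hq2 hpm hqm hv⟩, hpV⟩


open Classical in
/-- The counting theorem: `O(V ^ ((1 + K) / A + ε))` bad primes. -/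
theorem bad_count (A K ε : ℝ) (hA : 1 < A) (hK : 0 ≤ K) (hε : 0 < ε) : ∃ C : ℝ, ∀ V : ℕ, 1 ≤ V →
    (((Icc 1 V).filter (BadP A K)).card : ℝ) ≤ C * (V : ℝ) ^ ((1 + K) / A + ε) := by
  have hA0 : 0 < A := by linarith
  have hAi : 0 < 1 / A := by positivity
  have hAi1 : 1 / A < 1 := by rw [div_lt_one hA0]; exact hA
  -- the parameters
  obtain ⟨δ, hδ0, hδ1, hδ2⟩ : ∃ δ : ℝ, 0 < δ ∧ (4 + 2 * K) * δ ≤ ε ∧ δ < 1 - 1 / A := by
    refine ⟨min (ε / (4 + 2 * K)) ((1 - 1 / A) / 2), lt_min (by positivity) (by linarith), ?_, ?_⟩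
    · have h1 := min_le_left (ε / (4 + 2 * K)) ((1 - 1 / A) / 2)
      rw [le_div_iff₀ (by positivity)] at h1
      linarith
    · exact (min_le_right _ _).trans_lt (by linarith)
  obtain ⟨A', hA'⟩ : ∃ A' : ℝ, A' = 1 / (1 / A + δ) := ⟨_, rfl⟩
  have hA'i : 1 / A' = 1 / A + δ := by rw [hA', one_div_one_div]
  have hA'1 : 1 < A' := by
    rw [hA', lt_div_iff₀ (by positivity)]
    linarith
  have hA'0 : 0 < A' := by linarith
  have hA'A : A' < A := by
    have h1 : 1 / A < 1 / A' := by rw [hA'i]; linarith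
    exact (one_div_lt_one_div hA0 hA'0).mp h1
  obtain ⟨R, hR, hrank⟩ := Dq_rank A' δ hA'1 hδ0
  obtain ⟨σ, hσ⟩ : ∃ σ : ℝ, σ = 1 / A + 2 * δ := ⟨_, rfl⟩
  have hσ0 : 0 < σ := by rw [hσ]; positivity
  have hrank' : ∀ x X : ℕ, 1 ≤ X → X ≤ x →
      (((Dq A' x).filter (fun m => m ≤ X)).card : ℝ) ≤ R * (X : ℝ) ^ σ := by
    intro x X h1 h2
    have h3 := hrank x X h1 h2
    rw [hA'i] at h3
    have e : 1 / A + δ + δ = σ := by rw [hσ]; ring
    rwa [e] at h3
  -- large V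
  have hev1 : ∀ᶠ t : ℝ in Filter.atTop, ((4 + K) * t) ^ A' ≤ (1 / A * t) ^ A := by
    have h1 : Filter.Tendsto (fun t : ℝ => t ^ (A - A')) Filter.atTop Filter.atTop :=
      tendsto_rpow_atTop (by linarith)
    filter_upwards [h1.eventually_ge_atTop ((4 + K) ^ A' / (1 / A) ^ A), Filter.eventually_gt_atTop 0]
      with t ht ht0
    rw [div_le_iff₀ (by positivity)] at ht
    rw [mul_rpow (by positivity) ht0.le, mul_rpow (by positivity) ht0.le]
    have e : t ^ A = t ^ (A - A') * t ^ A' := by rw [← rpow_add ht0]; congr 1; ring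
    rw [e]
    have h2 : 0 < t ^ A' := by positivity
    nlinarith
  have hev2 : ∀ᶠ t : ℝ in Filter.atTop, 2 ≤ (1 / A * t) ^ A := by
    have h1 : Filter.Tendsto (fun t : ℝ => t ^ A) Filter.atTop Filter.atTop := tendsto_rpow_atTop hA0
    filter_upwards [h1.eventually_ge_atTop (2 / (1 / A) ^ A), Filter.eventually_gt_atTop 0] with t ht ht0
    rw [div_le_iff₀ (by positivity)] at ht
    rw [mul_rpow (by positivity) ht0.le]
    linarith
  have hev3 : ∀ᶠ t : ℝ in Filter.atTop, log 2 ≤ t := Filter.eventually_ge_atTop _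
  obtain ⟨x0, hx0⟩ := Filter.eventually_atTop.mp
    (tendsto_log_atTop.eventually ((hev1.and hev2).and hev3))
  obtain ⟨X0, hX0⟩ := exists_nat_ge x0
  obtain ⟨C1, hC1, hlogd⟩ : ∃ C1 : ℝ, 0 ≤ C1 ∧ ∀ V : ℕ, 1 ≤ V → ((Nat.log 2 V + 1 : ℕ) : ℝ) ≤ C1 * (V : ℝ) ^ δ := by
    refine ⟨1 / (δ * log 2) + 1, by positivity, fun V hV => ?_⟩
    have hV1 : (1 : ℝ) ≤ V := by exact_mod_cast hV
    have h1 : log (V : ℝ) ≤ (V : ℝ) ^ δ / δ := Real.log_le_rpow_div (by linarith) hδ0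
    have h2 : (Nat.log 2 V : ℝ) ≤ log V / log 2 := by
      have h3 := Real.natLog_le_logb V 2
      rw [Real.logb] at h3
      exact_mod_cast h3
    have h4 : log (V : ℝ) / log 2 ≤ (V : ℝ) ^ δ / δ / log 2 := by gcongr
    have h5 : (1 : ℝ) ≤ (V : ℝ) ^ δ := one_le_rpow hV1 hδ0.le
    have e : (V : ℝ) ^ δ / δ / log 2 = 1 / (δ * log 2) * (V : ℝ) ^ δ := by field_simp
    push_cast
    rw [e] at h4
    nlinarith
  refine ⟨1 + X0 + R + 2 * R + R * (C1 * (1 + Real.sqrt (2 * R))), fun V hV => ?_⟩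
  have hV1 : (1 : ℝ) ≤ V := by exact_mod_cast hV
  have hVpos : (0 : ℝ) < V := by linarith
  have hX00 : (0 : ℝ) ≤ X0 := Nat.cast_nonneg X0
  have hsq := Real.sqrt_nonneg (2 * R)
  have hexp : ∀ e : ℝ, e ≤ (1 + K) / A + ε → (V : ℝ) ^ e ≤ (V : ℝ) ^ ((1 + K) / A + ε) := fun e he =>
    rpow_le_rpow_of_exponent_le hV1 he
  have hW : 0 < (V : ℝ) ^ ((1 + K) / A + ε) := by positivity
  have hKA : (1 + K) / A = 1 / A + K / A := by ring
  have hKA0 : 0 ≤ K / A := by positivity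
  have hW1 : 1 ≤ (V : ℝ) ^ ((1 + K) / A + ε) := one_le_rpow hV1 (by positivity)
  rcases lt_or_ge V X0 with hsm | hlg
  · have h1 : ((Icc 1 V).filter (BadP A K)).card ≤ V := by
      refine (card_filter_le _ _).trans ?_
      rw [Nat.card_Icc]; omega
    have h2 : (((Icc 1 V).filter (BadP A K)).card : ℝ) ≤ X0 := by exact_mod_cast h1.trans hsm.le
    have h3 : 0 ≤ R + 2 * R + R * (C1 * (1 + Real.sqrt (2 * R))) := by positivity
    nlinarith
  · obtain ⟨⟨c1, c2⟩, c3⟩ := hx0 V (hX0.trans (by exact_mod_cast hlg))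
    obtain ⟨x, hxdef⟩ : ∃ x : ℕ, x = ⌈(V : ℝ) ^ (2 + K)⌉₊ := ⟨_, rfl⟩
    obtain ⟨y1, hy1⟩ : ∃ y1 : ℕ, y1 = ⌊(V : ℝ) ^ (1 + K)⌋₊ := ⟨_, rfl⟩
    obtain ⟨y2, hy2⟩ : ∃ y2 : ℕ, y2 = ⌊(V : ℝ) ^ K⌋₊ := ⟨_, rfl⟩
    have hxge : (V : ℝ) ^ (2 + K) ≤ x := by rw [hxdef]; exact Nat.le_ceil _
    have hxle : (x : ℝ) ≤ 2 * (V : ℝ) ^ (2 + K) := by
      have h1 := Nat.ceil_lt_add_one (show 0 ≤ (V : ℝ) ^ (2 + K) by positivity)
      have h2 : 1 ≤ (V : ℝ) ^ (2 + K) := one_le_rpow hV1 (by positivity)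
      rw [hxdef]; linarith
    have hx1 : V * V ≤ x := by
      have h1 : ((V * V : ℕ) : ℝ) ≤ (V : ℝ) ^ (2 + K) := by
        rw [rpow_add hVpos, rpow_two]
        have h2 : 1 ≤ (V : ℝ) ^ K := one_le_rpow hV1 hK
        push_cast
        nlinarith [mul_pos hVpos hVpos]
      exact_mod_cast h1.trans hxge
    have hy1le : (y1 : ℝ) ≤ (V : ℝ) ^ (1 + K) := by rw [hy1]; exact Nat.floor_le (by positivity)
    have hy2le : (y2 : ℝ) ≤ (V : ℝ) ^ K := by rw [hy2]; exact Nat.floor_le (by positivity)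
    have hx2 : y1 ≤ x := by
      have h1 : (V : ℝ) ^ (1 + K) ≤ (V : ℝ) ^ (2 + K) := rpow_le_rpow_of_exponent_le hV1 (by linarith)
      exact_mod_cast hy1le.trans (h1.trans hxge)
    have hx3 : y2 ≤ x := by
      have h1 : (V : ℝ) ^ K ≤ (V : ℝ) ^ (2 + K) := rpow_le_rpow_of_exponent_le hV1 (by linarith)
      exact_mod_cast hy2le.trans (h1.trans hxge)
    have hy1pos : 1 ≤ y1 := by
      rw [hy1]; apply Nat.le_floor; rw [Nat.cast_one]; exact one_le_rpow hV1 (by positivity)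
    have hy2pos : 1 ≤ y2 := by
      rw [hy2]; apply Nat.le_floor; rw [Nat.cast_one]; exact one_le_rpow hV1 hK
    have hlogx : log (x : ℝ) ≤ (4 + K) * log V := by
      have h1 : (0 : ℝ) < x := by have := hx1; have : 0 < x := lt_of_lt_of_le (Nat.mul_pos hV hV) hx1; exact_mod_cast this
      have h2 := log_le_log h1 hxle
      rw [log_mul (by norm_num) (by positivity), log_rpow hVpos] at h2
      have h3 := log_nonneg hV1
      nlinarith
    have hlogV : 0 ≤ log (V : ℝ) := log_nonneg hV1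
    have hl1 : (log (x : ℝ)) ^ A' ≤ (1 / A * log V) ^ A :=
      (rpow_le_rpow (log_natCast_nonneg x) hlogx hA'0.le).trans c1
    have hcover : (Icc 1 V).filter (BadP A K) ⊆ Icc 1 ⌊(V : ℝ) ^ (1 / A)⌋₊ ∪
        ((Dq A' x).filter (fun m => m ≤ V) ∪
      ((Dq A' x).filter (fun m => m ≤ y1 ∧ m.primeFactors.card ≤ 2)).biUnion (fun m => m.primeFactors) ∪
      ((Dq A' x).filter (fun m => m ≤ y2 ∧ m.Prime ∧ m ≠ 2)).biUnion
        (fun q => (range (Nat.log 2 V + 1)).biUnion (fun t => PQ (opr ⌊(log x) ^ A'⌋₊) V q t))) := by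
      intro p hp
      rw [mem_filter, mem_Icc] at hp
      obtain ⟨⟨hp1, hpV⟩, hb⟩ := hp
      rw [mem_union]
      rcases le_or_gt (p : ℝ) ((V : ℝ) ^ (1 / A)) with h | h
      · left
        rw [mem_Icc]
        exact ⟨hp1, Nat.le_floor h⟩
      · right
        have hp0 : (0 : ℝ) < p := by exact_mod_cast hp1
        have h1 : 1 / A * log (V : ℝ) ≤ log p := by
          have h2 := log_le_log (by positivity) h.le
          rwa [log_rpow hVpos] at h2
        have h3 : (1 / A * log (V : ℝ)) ^ A ≤ (log p) ^ A := rpow_le_rpow (by positivity) h1 hA0.le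
        exact cover hK hb hpV hx1 hx2 hx3 (by rw [hy2]; exact Nat.lt_floor_add_one _)
          (by rw [hy1]; exact Nat.lt_floor_add_one _) (hl1.trans h3) (c2.trans h3)
    have hcard := (card_le_card hcover).trans ((card_union_le _ _).trans (Nat.add_le_add_left
      ((card_union_le _ _).trans (Nat.add_le_add_right (card_union_le _ _) _)) _))
    -- the four parts
    have p0 : ((Icc 1 ⌊(V : ℝ) ^ (1 / A)⌋₊).card : ℝ) ≤ (V : ℝ) ^ ((1 + K) / A + ε) := by
      rw [Nat.card_Icc, Nat.add_sub_cancel]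
      exact (Nat.floor_le (by positivity)).trans (hexp _ (by rw [hKA]; linarith))
    have hVx : V ≤ x := (Nat.le_mul_self V).trans hx1
    have p1 : (((Dq A' x).filter (fun m => m ≤ V)).card : ℝ) ≤ R * (V : ℝ) ^ ((1 + K) / A + ε) := by
      refine (hrank' x V hV hVx).trans (mul_le_mul_of_nonneg_left (hexp _ ?_) hR.le)
      rw [hσ, hKA]
      nlinarith
    have p2 : ((((Dq A' x).filter (fun m => m ≤ y1 ∧ m.primeFactors.card ≤ 2)).biUnion
        (fun m => m.primeFactors)).card : ℝ) ≤ 2 * R * (V : ℝ) ^ ((1 + K) / A + ε) := by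
      have h1 : (((Dq A' x).filter (fun m => m ≤ y1 ∧ m.primeFactors.card ≤ 2)).biUnion
        (fun m => m.primeFactors)).card ≤ ((Dq A' x).filter (fun m => m ≤ y1)).card * 2 := by
        refine card_biUnion_le.trans ?_
        refine (sum_le_card_nsmul _ _ 2 fun m hm => (mem_filter.mp hm).2.2).trans ?_
        rw [smul_eq_mul]
        apply Nat.mul_le_mul_right
        apply card_le_card
        intro m hm
        rw [mem_filter] at hm ⊢
        exact ⟨hm.1, hm.2.1⟩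
      have h2 := hrank' x y1 hy1pos hx2
      have h3 : (y1 : ℝ) ^ σ ≤ (V : ℝ) ^ ((1 + K) / A + ε) := by
        refine (rpow_le_rpow (Nat.cast_nonneg _) hy1le hσ0.le).trans ?_
        rw [← rpow_mul hVpos.le]
        apply hexp
        rw [hσ]
        have : (1 + K) * (1 / A + 2 * δ) = (1 + K) / A + (2 + 2 * K) * δ := by ring
        rw [this]
        nlinarith
      have h4 : ((((Dq A' x).filter (fun m => m ≤ y1 ∧ m.primeFactors.card ≤ 2)).biUnion
        (fun m => m.primeFactors)).card : ℝ) ≤ (((Dq A' x).filter (fun m => m ≤ y1)).card : ℝ) * 2 := by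
        exact_mod_cast h1
      have h5 := mul_le_mul_of_nonneg_left h3 hR.le
      linarith
    have p3 : ((((Dq A' x).filter (fun m => m ≤ y2 ∧ m.Prime ∧ m ≠ 2)).biUnion
        (fun q => (range (Nat.log 2 V + 1)).biUnion (fun t => PQ (opr ⌊(log x) ^ A'⌋₊) V q t))).card : ℝ) ≤
        R * (C1 * (1 + Real.sqrt (2 * R))) * (V : ℝ) ^ ((1 + K) / A + ε) := by
      obtain ⟨B, hB⟩ : ∃ B : ℝ, B = 1 + Real.sqrt (2 * ((Dq A' x).filter (fun m => m ≤ V * V)).card) := ⟨_, rfl⟩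
      have hBle : B ≤ (1 + Real.sqrt (2 * R)) * (V : ℝ) ^ σ := by
        have h1 := hrank' x (V * V) (Nat.mul_pos hV hV) hx1
        have h2 : Real.sqrt (2 * ((Dq A' x).filter (fun m => m ≤ V * V)).card) ≤
            Real.sqrt (2 * R) * (V : ℝ) ^ σ := by
          apply Real.sqrt_le_iff.mpr
          refine ⟨by positivity, ?_⟩
          rw [mul_pow, Real.sq_sqrt (by positivity), ← rpow_natCast, ← rpow_mul hVpos.le]
          have e : ((V * V : ℕ) : ℝ) ^ σ = (V : ℝ) ^ (σ * (2 : ℕ)) := by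
            push_cast
            rw [mul_rpow hVpos.le hVpos.le, ← rpow_add hVpos]
            congr 1; ring
          rw [e] at h1
          linarith
        have h3 : 1 ≤ (V : ℝ) ^ σ := one_le_rpow hV1 hσ0.le
        rw [hB]
        nlinarith
      have hB0 : 0 ≤ B := by rw [hB]; positivity
      have h1 : ∀ q ∈ (Dq A' x).filter (fun m => m ≤ y2 ∧ m.Prime ∧ m ≠ 2),
          (((range (Nat.log 2 V + 1)).biUnion (fun t => PQ (opr ⌊(log x) ^ A'⌋₊) V q t)).card : ℝ) ≤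
          ((Nat.log 2 V + 1 : ℕ) : ℝ) * B := by
        intro q hq
        rw [mem_filter] at hq
        have h2 : (((range (Nat.log 2 V + 1)).biUnion (fun t => PQ (opr ⌊(log x) ^ A'⌋₊) V q t)).card : ℝ) ≤
            ∑ t ∈ range (Nat.log 2 V + 1), ((PQ (opr ⌊(log x) ^ A'⌋₊) V q t).card : ℝ) := by
          exact_mod_cast card_biUnion_le
        refine h2.trans (le_trans (sum_le_sum (g := fun _ => B) fun t _ => ?_) (le_of_eq ?_))
        · rw [hB]; exact pq_card hq.2.2.1 hq.2.2.2 hx1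
        · rw [sum_const, card_range, nsmul_eq_mul]
      have h2 : ((((Dq A' x).filter (fun m => m ≤ y2 ∧ m.Prime ∧ m ≠ 2)).biUnion
        (fun q => (range (Nat.log 2 V + 1)).biUnion (fun t => PQ (opr ⌊(log x) ^ A'⌋₊) V q t))).card : ℝ) ≤
          (((Dq A' x).filter (fun m => m ≤ y2)).card : ℝ) * (((Nat.log 2 V + 1 : ℕ) : ℝ) * B) := by
        have h3 : ((((Dq A' x).filter (fun m => m ≤ y2 ∧ m.Prime ∧ m ≠ 2)).biUnion
          (fun q => (range (Nat.log 2 V + 1)).biUnion (fun t => PQ (opr ⌊(log x) ^ A'⌋₊) V q t))).card : ℝ) ≤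
          ∑ q ∈ (Dq A' x).filter (fun m => m ≤ y2 ∧ m.Prime ∧ m ≠ 2),
            (((range (Nat.log 2 V + 1)).biUnion (fun t => PQ (opr ⌊(log x) ^ A'⌋₊) V q t)).card : ℝ) := by
          exact_mod_cast card_biUnion_le
        refine h3.trans ((sum_le_sum h1).trans ?_)
        rw [sum_const, nsmul_eq_mul]
        apply mul_le_mul_of_nonneg_right _ (by positivity)
        have h4 : ((Dq A' x).filter (fun m => m ≤ y2 ∧ m.Prime ∧ m ≠ 2)) ⊆ (Dq A' x).filter (fun m => m ≤ y2) := by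
          intro m hm
          rw [mem_filter] at hm ⊢
          exact ⟨hm.1, hm.2.1⟩
        exact_mod_cast card_le_card h4
      have h3 := hrank' x y2 hy2pos hx3
      have h4 : (y2 : ℝ) ^ σ ≤ (V : ℝ) ^ (K * σ) := by
        refine (rpow_le_rpow (Nat.cast_nonneg _) hy2le hσ0.le).trans ?_
        rw [← rpow_mul hVpos.le]
      have h5 := hlogd V hV
      have h6 : (((Dq A' x).filter (fun m => m ≤ y2)).card : ℝ) ≤ R * (V : ℝ) ^ (K * σ) :=
        h3.trans (mul_le_mul_of_nonneg_left h4 hR.le)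
      have h7 : ((Nat.log 2 V + 1 : ℕ) : ℝ) * B ≤ (C1 * (V : ℝ) ^ δ) * ((1 + Real.sqrt (2 * R)) * (V : ℝ) ^ σ) :=
        mul_le_mul h5 hBle hB0 (by positivity)
      have h8 := h2.trans (mul_le_mul h6 h7 (by positivity) (by positivity))
      refine h8.trans ?_
      have e : R * (V : ℝ) ^ (K * σ) * (C1 * (V : ℝ) ^ δ * ((1 + Real.sqrt (2 * R)) * (V : ℝ) ^ σ)) =
          R * (C1 * (1 + Real.sqrt (2 * R))) * (V : ℝ) ^ (K * σ + δ + σ) := by
        rw [rpow_add hVpos, rpow_add hVpos]; ring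
      rw [e]
      apply mul_le_mul_of_nonneg_left _ (by positivity)
      apply hexp
      rw [hσ]
      have e2 : K * (1 / A + 2 * δ) + δ + (1 / A + 2 * δ) = (1 + K) / A + (3 + 2 * K) * δ := by ring
      rw [e2]
      nlinarith
    have h9 : (((Icc 1 V).filter (BadP A K)).card : ℝ) ≤
        ((Icc 1 ⌊(V : ℝ) ^ (1 / A)⌋₊).card : ℝ) + ((((Dq A' x).filter (fun m => m ≤ V)).card : ℝ) +
        ((((Dq A' x).filter (fun m => m ≤ y1 ∧ m.primeFactors.card ≤ 2)).biUnion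
        (fun m => m.primeFactors)).card : ℝ) + ((((Dq A' x).filter (fun m => m ≤ y2 ∧ m.Prime ∧ m ≠ 2)).biUnion
        (fun q => (range (Nat.log 2 V + 1)).biUnion (fun t => PQ (opr ⌊(log x) ^ A'⌋₊) V q t))).card : ℝ)) := by
      exact_mod_cast hcard
    nlinarith

end Pool.Agent.X244.SPP
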