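import Pool.Agent.W57.SW.Count

set_option autoImplicit false

/-! Primes `p` such that some multiple of `p q`, `q ≤ p ^ K` a further prime, passes the strong test for all prime
bases up to `(log p) ^ A`: at most `O(x ^ ((1 + K) / A + ε))` of them. -/

namespace Pool.Agent.X244.SPP

open Finset Real Pool.Agent.H379R2.W Pool.Agent.W57.SW

/-- levels are determined by one prime -/
lemma level_unique {q b i i' d d' : ℕ} (hq : q.Prime) (hq2 : q ≠ 2) (hd : Odd d) (hd' : Odd d') (hii : i < i')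
    (h : (b : ZMod q) ^ (2 ^ i * d) = -1) (h' : (b : ZMod q) ^ (2 ^ i' * d') = -1) : False := by
  haveI := Fact.mk hq
  haveI : Fact (2 < q) := ⟨lt_of_le_of_ne hq.two_le (Ne.symm hq2)⟩
  have hne : (-1 : ZMod q) ≠ 1 := ZMod.neg_one_ne_one
  have e : 2 ^ i' * d' * d = 2 ^ i * d * (2 ^ (i' - i) * d') := by
    have : i' = i + (i' - i) := by omega
    conv_lhs => rw [this, pow_add]
    ring
  have h1 : (b : ZMod q) ^ (2 ^ i' * d' * d) = -1 := by rw [pow_mul, h', hd.neg_one_pow]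
  have h2 : (b : ZMod q) ^ (2 ^ i' * d' * d) = 1 := by
    rw [e, pow_mul, h]
    have : Even (2 ^ (i' - i) * d') := (Nat.even_pow.mpr ⟨even_two, by omega⟩).mul_right _
    rw [this.neg_one_pow]
  exact hne (h1.symm.trans h2)

lemma level_odd {q b i d d' : ℕ} (hq : q.Prime) (hq2 : q ≠ 2) (hd : Odd d) (hd' : Odd d')
    (h : (b : ZMod q) ^ (2 ^ i * d) = -1) (h' : (b : ZMod q) ^ d' = 1) : False := by
  haveI := Fact.mk hq
  haveI : Fact (2 < q) := ⟨lt_of_le_of_ne hq.two_le (Ne.symm hq2)⟩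
  have hne : (-1 : ZMod q) ≠ 1 := ZMod.neg_one_ne_one
  have h1 : (b : ZMod q) ^ (2 ^ i * d * d') = -1 := by rw [pow_mul, h, hd'.neg_one_pow]
  have h2 : (b : ZMod q) ^ (2 ^ i * d * d') = 1 := by
    rw [mul_comm, pow_mul, h', one_pow]
  exact hne (h1.symm.trans h2)

/-- Two different numbers with a common prime divisor: the symbols of the other prime divisors with the same `v2`
agree. -/
lemma cross {m m' b p p' q : ℕ} (h : Passes m b) (h' : Passes m' b) (hp : p.Prime) (hp' : p'.Prime) (hq : q.Prime)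
    (hp2 : p ≠ 2) (hp2' : p' ≠ 2) (hq2 : q ≠ 2) (hpm : p ∣ m) (hqm : q ∣ m) (hpm' : p' ∣ m') (hqm' : q ∣ m')
    (hv : v2 p = v2 p') : jacobiSym b p = jacobiSym b p' := by
  obtain ⟨j, d, h1, h2, h3⟩ := h
  obtain ⟨j', d', h1', h2', h3'⟩ := h'
  have cast1 : ∀ {r n e : ℕ}, r ∣ n → (b : ZMod n) ^ e = 1 → (b : ZMod r) ^ e = 1 := by
    intro r n e hr he
    have e1 := congrArg (ZMod.castHom hr (ZMod r)) he
    rwa [map_pow, map_natCast, map_one] at e1
  have cast2 : ∀ {r n e : ℕ}, r ∣ n → (b : ZMod n) ^ e = -1 → (b : ZMod r) ^ e = -1 := by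
    intro r n e hr he
    have e1 := congrArg (ZMod.castHom hr (ZMod r)) he
    rwa [map_pow, map_natCast, map_neg, map_one] at e1
  rcases h3 with h3 | ⟨i, hi, h3⟩
  · rcases h3' with h3' | ⟨i', hi', h3'⟩
    · rw [legendre_odd hp h2 (cast1 hpm h3), legendre_odd hp' h2' (cast1 hpm' h3')]
    · exact (level_odd hq hq2 h2' h2 (cast2 hqm' h3') (cast1 hqm h3)).elim
  · rcases h3' with h3' | ⟨i', hi', h3'⟩
    · exact (level_odd hq hq2 h2 h2' (cast2 hqm h3) (cast1 hqm' h3')).elim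
    · have hii : i = i' := by
        rcases lt_trichotomy i i' with h | h | h
        · exact (level_unique hq hq2 h2 h2' h (cast2 hqm h3) (cast2 hqm' h3')).elim
        · exact h
        · exact (level_unique hq hq2 h2' h2 h (cast2 hqm' h3') (cast2 hqm h3)).elim
      obtain ⟨_, f2, f3⟩ := legendre_level hp hp2 h2 (cast2 hpm h3)
      obtain ⟨_, g2, g3⟩ := legendre_level hp' hp2' h2' (cast2 hpm' h3')
      by_cases hc : i + 1 = v2 p
      · rw [f2.mpr hc, g2.mpr (by omega)]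
      · have f4 : jacobiSym b p = 1 := by
          rcases f3 with f3 | f3
          · exact f3
          · exact absurd (f2.mp f3) hc
        have g4 : jacobiSym b p' = 1 := by
          rcases g3 with g3 | g3
          · exact g3
          · exact absurd (g2.mp g3) (by omega)
        rw [f4, g4]

lemma sym_pm {m ℓ p : ℕ} (hm : 2 ≤ m) (hp : p.Prime) (hpm : p ∣ m) (h : Passes m ℓ) :
    jacobiSym (ℓ : ℤ) p = 1 ∨ jacobiSym (ℓ : ℤ) p = -1 := by
  have h1 := not_dvd_of_passes hm hp hpm h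
  have hco : Nat.Coprime ℓ p := ((Nat.Prime.coprime_iff_not_dvd hp).mpr h1).symm
  have : NeZero p := ⟨hp.ne_zero⟩
  rcases jacobiSym.trichotomy (ℓ : ℤ) p with h | h | h
  · exfalso
    rw [jacobiSym.eq_zero_iff_not_coprime, Int.gcd_natCast_natCast] at h
    exact h hco
  · exact Or.inl h
  · exact Or.inr h

lemma mul_sym {m ℓ p p' : ℕ} (hm : 2 ≤ m) (hp : p.Prime) (hp' : p'.Prime) (hpm : p ∣ m) (h : Passes m ℓ)
    (he : jacobiSym (ℓ : ℤ) p = jacobiSym (ℓ : ℤ) p') : jacobiSym (ℓ : ℤ) (p * p' : ℕ) = 1 := by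
  have : NeZero p := ⟨hp.ne_zero⟩
  have : NeZero p' := ⟨hp'.ne_zero⟩
  rw [jacobiSym.mul_right, ← he]
  rcases sym_pm hm hp hpm h with h1 | h1 <;> rw [h1] <;> norm_num

lemma mul_mem {A : ℝ} {x p p' : ℕ} (hp : p.Prime) (hp' : p'.Prime) (hne : p ≠ p') (hp2 : p ≠ 2) (hp2' : p' ≠ 2)
    (hx : p * p' ≤ x) (h : ∀ ℓ ∈ opr ⌊(log x) ^ A⌋₊, jacobiSym (ℓ : ℤ) (p * p' : ℕ) = 1) : p * p' ∈ Dq A x := by
  rw [mem_Dq]
  refine ⟨⟨Nat.mul_pos hp.pos hp'.pos, hx⟩, (hp.odd_of_ne_two hp2).mul (hp'.odd_of_ne_two hp2'), ?_, h⟩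
  rw [Nat.squarefree_mul ((Nat.coprime_primes hp hp').mpr hne)]
  exact ⟨hp.prime.squarefree, hp'.prime.squarefree⟩

/-- `p` and `q` divide a number which passes for all primes of a set -/
def Pair (T : Finset ℕ) (p q : ℕ) : Prop := ∃ m : ℕ, 2 ≤ m ∧ p ∣ m ∧ q ∣ m ∧ ∀ ℓ ∈ T, Passes m ℓ

open Classical in
/-- the primes with a given `v2` paired with `q` -/
noncomputable def PQ (T : Finset ℕ) (V q t : ℕ) : Finset ℕ :=
  (Icc 1 V).filter (fun p => p.Prime ∧ p ≠ 2 ∧ v2 p = t ∧ Pair T p q)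

/-- few primes are paired with a given one -/
lemma pq_card {A : ℝ} {x V q t : ℕ} (hq : q.Prime) (hq2 : q ≠ 2) (hx : V * V ≤ x) :
    ((PQ (opr ⌊(log x) ^ A⌋₊) V q t).card : ℝ) ≤
      1 + Real.sqrt (2 * ((Dq A x).filter (fun m => m ≤ V * V)).card) := by
  classical
  obtain ⟨P, hP⟩ : ∃ P, P = PQ (opr ⌊(log (x : ℝ)) ^ A⌋₊) V q t := ⟨_, rfl⟩
  rw [← hP]
  have hmem : ∀ p ∈ P, (1 ≤ p ∧ p ≤ V) ∧ p.Prime ∧ p ≠ 2 ∧ v2 p = t ∧
      Pair (opr ⌊(log (x : ℝ)) ^ A⌋₊) p q := by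
    intro p hp
    rw [hP, PQ, mem_filter, mem_Icc] at hp
    exact hp
  have hsub : prods P 2 ⊆ (Dq A x).filter (fun m => m ≤ V * V) := by
    intro n hn
    rw [prods, mem_image] at hn
    obtain ⟨T, hT, rfl⟩ := hn
    rw [mem_powersetCard] at hT
    obtain ⟨hT1, hT2⟩ := hT
    rw [card_eq_two] at hT2
    obtain ⟨p, p', hne, rfl⟩ := hT2
    obtain ⟨⟨a1, a2⟩, a3, a4, a5, m, a6, a7, a8, a9⟩ := hmem p (hT1 (by simp))
    obtain ⟨⟨b1, b2⟩, b3, b4, b5, m', b6, b7, b8, b9⟩ := hmem p' (hT1 (by simp))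
    rw [prod_pair hne, mem_filter]
    have hle : p * p' ≤ V * V := Nat.mul_le_mul a2 b2
    refine ⟨mul_mem a3 b3 hne a4 b4 (hle.trans hx) (fun ℓ hℓ => ?_), hle⟩
    exact mul_sym a6 a3 b3 a7 (a9 ℓ hℓ)
      (cross (a9 ℓ hℓ) (b9 ℓ hℓ) a3 b3 hq a4 b4 hq2 a7 a8 b7 b8 (a5.trans b5.symm))
  have h1 := card_le_card hsub
  rw [card_prods (fun p hp => (hmem p hp).2.1), Nat.choose_two_right] at h1
  have h2 : P.card * (P.card - 1) ≤ 2 * ((Dq A x).filter (fun m => m ≤ V * V)).card := by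
    have h3 : P.card * (P.card - 1) / 2 * 2 = P.card * (P.card - 1) :=
      Nat.div_mul_cancel (Nat.even_mul_pred_self P.card).two_dvd
    omega
  rcases Nat.eq_zero_or_pos P.card with h0 | h0
  · rw [h0]
    push_cast
    positivity
  have h4 : ((P.card : ℝ) - 1) ^ 2 ≤ 2 * (((Dq A x).filter (fun m => m ≤ V * V)).card : ℝ) := by
    have h5 : (1 : ℝ) ≤ P.card := by exact_mod_cast h0
    have h6 : ((P.card * (P.card - 1) : ℕ) : ℝ) ≤ ((2 * ((Dq A x).filter (fun m => m ≤ V * V)).card : ℕ) : ℝ) := by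
      exact_mod_cast h2
    rw [Nat.cast_mul, Nat.cast_sub h0, Nat.cast_one, Nat.cast_mul, Nat.cast_ofNat] at h6
    nlinarith
  have h5 := Real.le_sqrt_of_sq_le h4
  linarith

end Pool.Agent.X244.SPP
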