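import Pool.Agent.X244.SPP.Count

set_option autoImplicit false

/-! Counting the pairs of primes `p ≤ V`, `q ≤ W` such that some multiple of `p q` passes. -/

namespace Pool.Agent.X244.SPP

open Finset Real Pool.Agent.H379R2.W Pool.Agent.W57.SW

/-- some number divisible by `p q` passes for all primes up to `(log max (p, q)) ^ A` -/
def BadPair (A : ℝ) (p q : ℕ) : Prop :=
  p.Prime ∧ q.Prime ∧ q ≠ p ∧ ∃ m : ℕ, 2 ≤ m ∧ p * q ∣ m ∧
    ∀ b : ℕ, b.Prime → (b : ℝ) ≤ (log (max p q : ℕ)) ^ A → Passes m b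

open Classical in
/-- all primes paired with `q` -/
noncomputable def Slice (T : Finset ℕ) (V q : ℕ) : Finset ℕ :=
  (range (Nat.log 2 V + 1)).biUnion (fun t => PQ T V q t)

lemma mem_slice {T : Finset ℕ} {V p q : ℕ} (hp : p.Prime) (hp2 : p ≠ 2) (hpV : p ≤ V) (h : Pair T p q) :
    p ∈ Slice T V q := by
  classical
  rw [Slice, mem_biUnion]
  refine ⟨v2 p, ?_, ?_⟩
  · rw [mem_range, Nat.lt_succ_iff]
    have h1 : 2 ^ v2 p ∣ p - 1 := Nat.ordProj_dvd _ _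
    have h2 : 2 ^ v2 p ≤ V := (Nat.le_of_dvd (by have := hp.two_le; omega) h1).trans (by omega)
    exact Nat.le_log_of_pow_le (by norm_num) h2
  · rw [PQ, mem_filter, mem_Icc]
    exact ⟨⟨hp.pos, hpV⟩, hp, hp2, rfl, h⟩

lemma slice_card {A' R σ : ℝ} {x V q : ℕ} (hR : 0 ≤ R) (hσ : 0 ≤ σ)
    (hrank : ∀ X : ℕ, 1 ≤ X → X ≤ x → (((Dq A' x).filter (fun m => m ≤ X)).card : ℝ) ≤ R * (X : ℝ) ^ σ)
    (hV : 1 ≤ V) (hx : V * V ≤ x) (hq : q.Prime) (hq2 : q ≠ 2) :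
    ((Slice (opr ⌊(log x) ^ A'⌋₊) V q).card : ℝ) ≤
      ((Nat.log 2 V + 1 : ℕ) : ℝ) * ((1 + Real.sqrt (2 * R)) * (V : ℝ) ^ σ) := by
  classical
  have hV1 : (1 : ℝ) ≤ V := by exact_mod_cast hV
  have hVpos : (0 : ℝ) < V := by linarith
  have hsq := Real.sqrt_nonneg (2 * R)
  have hB : ∀ t : ℕ, ((PQ (opr ⌊(log (x : ℝ)) ^ A'⌋₊) V q t).card : ℝ) ≤ (1 + Real.sqrt (2 * R)) * (V : ℝ) ^ σ := by
    intro t
    refine (pq_card hq hq2 hx).trans ?_
    have h1 := hrank (V * V) (Nat.mul_pos hV hV) hx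
    have h2 : Real.sqrt (2 * ((Dq A' x).filter (fun m => m ≤ V * V)).card) ≤ Real.sqrt (2 * R) * (V : ℝ) ^ σ := by
      apply Real.sqrt_le_iff.mpr
      refine ⟨by positivity, ?_⟩
      rw [mul_pow, Real.sq_sqrt (by positivity), ← rpow_natCast, ← rpow_mul hVpos.le]
      have e : ((V * V : ℕ) : ℝ) ^ σ = (V : ℝ) ^ (σ * (2 : ℕ)) := by
        push_cast
        rw [mul_rpow hVpos.le hVpos.le, ← rpow_add hVpos]
        congr 1; ring
      rw [e] at h1
      linarith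
    have h3 : 1 ≤ (V : ℝ) ^ σ := one_le_rpow hV1 hσ
    nlinarith
  rw [Slice]
  have h2 : (((range (Nat.log 2 V + 1)).biUnion (fun t => PQ (opr ⌊(log (x : ℝ)) ^ A'⌋₊) V q t)).card : ℝ) ≤
      ∑ t ∈ range (Nat.log 2 V + 1), ((PQ (opr ⌊(log (x : ℝ)) ^ A'⌋₊) V q t).card : ℝ) := by
    exact_mod_cast card_biUnion_le
  refine h2.trans (le_trans (sum_le_sum fun t _ => hB t) (le_of_eq ?_))
  rw [sum_const, card_range, nsmul_eq_mul]

open Classical in
/-- the covering of the set of bad pairs -/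
lemma cover_pairs {A A' : ℝ} {V W x p q : ℕ} (hb : BadPair A p q) (hpV : p ≤ V) (hqW : q ≤ W)
    (hx1 : V * W ≤ x) (hx2 : V ≤ x) (hx3 : W ≤ x)
    (hl1 : (log x) ^ A' ≤ (log (max p q : ℕ)) ^ A) (hl2 : 2 ≤ (log (max p q : ℕ)) ^ A) :
    (p, q) ∈ ((Dq A' x).filter (fun m => m ≤ V * W ∧ m.primeFactors.card ≤ 2)).biUnion
        (fun m => m.primeFactors ×ˢ m.primeFactors) ∪
      (((Dq A' x).filter (fun m => m ≤ W ∧ m.Prime ∧ m ≠ 2)).biUnion
        (fun q => Slice (opr ⌊(log x) ^ A'⌋₊) V q ×ˢ {q}) ∪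
      ((Dq A' x).filter (fun m => m ≤ V ∧ m.Prime ∧ m ≠ 2)).biUnion
        (fun p => {p} ×ˢ Slice (opr ⌊(log x) ^ A'⌋₊) W p)) := by
  obtain ⟨hp, hq, hqp, m, hm, hpq, hpass⟩ := hb
  have hpm : p ∣ m := (Dvd.intro _ rfl).trans hpq
  have hqm : q ∣ m := (Dvd.intro_left _ rfl).trans hpq
  have hp2 : p ≠ 2 := by
    rintro rfl
    exact not_dvd_of_passes hm hp hpm (hpass 2 Nat.prime_two (by exact_mod_cast hl2)) dvd_rfl
  have hq2 : q ≠ 2 := by
    rintro rfl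
    exact not_dvd_of_passes hm hq hqm (hpass 2 Nat.prime_two (by exact_mod_cast hl2)) dvd_rfl
  have hT : ∀ ℓ ∈ opr ⌊(log (x : ℝ)) ^ A'⌋₊, Passes m ℓ := by
    intro ℓ hℓ
    rw [mem_opr] at hℓ
    apply hpass ℓ hℓ.1
    have h1 : (ℓ : ℝ) ≤ (⌊(log (x : ℝ)) ^ A'⌋₊ : ℝ) := by exact_mod_cast hℓ.2.1
    exact h1.trans ((Nat.floor_le (rpow_nonneg (log_natCast_nonneg x) _)).trans hl1)
  rcases lt_trichotomy (v2 p) (v2 q) with hv | hv | hv
  · apply mem_union_right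
    apply mem_union_left
    rw [mem_biUnion]
    refine ⟨q, mem_filter.mpr ⟨?_, hqW, hq, hq2⟩, ?_⟩
    · rw [mem_Dq]
      exact ⟨⟨hq.pos, hqW.trans hx3⟩, hq.odd_of_ne_two hq2, hq.prime.squarefree,
        fun ℓ hℓ => symbol_one (hT ℓ hℓ) hq hp hq2 hp2 hqm hpm hv⟩
    · rw [mem_product]
      exact ⟨mem_slice hp hp2 hpV ⟨m, hm, hpm, hqm, hT⟩, mem_singleton_self _⟩
  · apply mem_union_left
    rw [mem_biUnion]
    have hle : p * q ≤ V * W := Nat.mul_le_mul hpV hqW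
    refine ⟨p * q, mem_filter.mpr ⟨?_, hle, ?_⟩, ?_⟩
    · apply mul_mem hp hq hqp.symm hp2 hq2 (hle.trans hx1)
      intro ℓ hℓ
      exact mul_sym hm hp hq hpm (hT ℓ hℓ) (same_symbol (hT ℓ hℓ) hp hq hp2 hq2 hpm hqm hv)
    · rw [Nat.primeFactors_mul hp.ne_zero hq.ne_zero, hp.primeFactors, hq.primeFactors]
      exact (card_union_le _ _).trans (by simp)
    · rw [mem_product, Nat.mem_primeFactors, Nat.mem_primeFactors]
      have h0 := Nat.mul_ne_zero hp.ne_zero hq.ne_zero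
      exact ⟨⟨hp, Dvd.intro _ rfl, h0⟩, hq, Dvd.intro_left _ rfl, h0⟩
  · apply mem_union_right
    apply mem_union_right
    rw [mem_biUnion]
    refine ⟨p, mem_filter.mpr ⟨?_, hpV, hp, hp2⟩, ?_⟩
    · rw [mem_Dq]
      exact ⟨⟨hp.pos, hpV.trans hx2⟩, hp.odd_of_ne_two hp2, hp.prime.squarefree,
        fun ℓ hℓ => symbol_one (hT ℓ hℓ) hp hq hp2 hq2 hpm hqm hv⟩
    · rw [mem_product]
      exact ⟨mem_singleton_self _, mem_slice hq hq2 hqW ⟨m, hm, hqm, hpm, hT⟩⟩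

open Classical in
/-- The counting theorem: `O((V W) ^ (1 / A + ε))` bad pairs. -/
theorem pair_count (A ε : ℝ) (hA : 1 < A) (hε : 0 < ε) : ∃ C : ℝ, 0 ≤ C ∧ ∀ V W : ℕ, 1 ≤ V → 1 ≤ W →
    (((Icc 1 V ×ˢ Icc 1 W).filter (fun a => BadPair A a.1 a.2)).card : ℝ) ≤ C * ((V : ℝ) * W) ^ (1 / A + ε) := by
  have hA0 : 0 < A := by linarith
  have hAi : 0 < 1 / A := by positivity
  have hAi1 : 1 / A < 1 := by rw [div_lt_one hA0]; exact hA
  obtain ⟨δ, hδ0, hδ1, hδ2⟩ : ∃ δ : ℝ, 0 < δ ∧ 3 * δ ≤ ε ∧ δ < 1 - 1 / A := by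
    refine ⟨min (ε / 3) ((1 - 1 / A) / 2), lt_min (by positivity) (by linarith), ?_, ?_⟩
    · have h1 := min_le_left (ε / 3) ((1 - 1 / A) / 2)
      linarith
    · exact (min_le_right _ _).trans_lt (by linarith)
  obtain ⟨A', hA'⟩ : ∃ A' : ℝ, A' = 1 / (1 / A + δ) := ⟨_, rfl⟩
  have hA'i : 1 / A' = 1 / A + δ := by rw [hA', one_div_one_div]
  have hA'1 : 1 < A' := by
    rw [hA', lt_div_iff₀ (by positivity)]
    linarith
  have hA'0 : 0 < A' := by linarith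
  have hA'A : A' < A := by
    have h1 : 1 / A < 1 / A' := by rw [hA'i]; linarith
    exact (one_div_lt_one_div hA0 hA'0).mp h1
  obtain ⟨R, hR, hrank⟩ := Dq_rank A' δ hA'1 hδ0
  obtain ⟨σ, hσ⟩ : ∃ σ : ℝ, σ = 1 / A + 2 * δ := ⟨_, rfl⟩
  have hσ0 : 0 < σ := by rw [hσ]; positivity
  have hrank' : ∀ x X : ℕ, 1 ≤ X → X ≤ x →
      (((Dq A' x).filter (fun m => m ≤ X)).card : ℝ) ≤ R * (X : ℝ) ^ σ := by
    intro x X h1 h2
    have h3 := hrank x X h1 h2
    rw [hA'i] at h3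
    have e : 1 / A + δ + δ = σ := by rw [hσ]; ring
    rwa [e] at h3
  obtain ⟨η, hη⟩ : ∃ η : ℝ, η = 1 / (2 * A) := ⟨_, rfl⟩
  have hη0 : 0 < η := by rw [hη]; positivity
  have hη2 : 2 * η = 1 / A := by rw [hη]; field_simp
  have hev1 : ∀ᶠ t : ℝ in Filter.atTop, (2 * t) ^ A' ≤ (η * t) ^ A := by
    have h1 : Filter.Tendsto (fun t : ℝ => t ^ (A - A')) Filter.atTop Filter.atTop :=
      tendsto_rpow_atTop (by linarith)
    filter_upwards [h1.eventually_ge_atTop (2 ^ A' / η ^ A), Filter.eventually_gt_atTop 0]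
      with t ht ht0
    rw [div_le_iff₀ (by positivity)] at ht
    rw [mul_rpow (by positivity) ht0.le, mul_rpow (by positivity) ht0.le]
    have e : t ^ A = t ^ (A - A') * t ^ A' := by rw [← rpow_add ht0]; congr 1; ring
    rw [e]
    have h2 : 0 < t ^ A' := by positivity
    nlinarith
  have hev2 : ∀ᶠ t : ℝ in Filter.atTop, 2 ≤ (η * t) ^ A := by
    have h1 : Filter.Tendsto (fun t : ℝ => t ^ A) Filter.atTop Filter.atTop := tendsto_rpow_atTop hA0
    filter_upwards [h1.eventually_ge_atTop (2 / η ^ A), Filter.eventually_gt_atTop 0] with t ht ht0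
    rw [div_le_iff₀ (by positivity)] at ht
    rw [mul_rpow (by positivity) ht0.le]
    linarith
  obtain ⟨x0, hx0⟩ := Filter.eventually_atTop.mp (tendsto_log_atTop.eventually (hev1.and hev2))
  obtain ⟨X0, hX0⟩ := exists_nat_ge x0
  obtain ⟨C1, hC1, hlogd⟩ : ∃ C1 : ℝ, 0 ≤ C1 ∧ ∀ V : ℕ, 1 ≤ V → ((Nat.log 2 V + 1 : ℕ) : ℝ) ≤ C1 * (V : ℝ) ^ δ := by
    refine ⟨1 / (δ * log 2) + 1, by positivity, fun V hV => ?_⟩
    have hV1 : (1 : ℝ) ≤ V := by exact_mod_cast hV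
    have h1 : log (V : ℝ) ≤ (V : ℝ) ^ δ / δ := Real.log_le_rpow_div (by linarith) hδ0
    have h2 : (Nat.log 2 V : ℝ) ≤ log V / log 2 := by
      have h3 := Real.natLog_le_logb V 2
      rw [Real.logb] at h3
      exact_mod_cast h3
    have h4 : log (V : ℝ) / log 2 ≤ (V : ℝ) ^ δ / δ / log 2 := by gcongr
    have h5 : (1 : ℝ) ≤ (V : ℝ) ^ δ := one_le_rpow hV1 hδ0.le
    have e : (V : ℝ) ^ δ / δ / log 2 = 1 / (δ * log 2) * (V : ℝ) ^ δ := by field_simp
    push_cast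
    rw [e] at h4
    nlinarith
  have hsq := Real.sqrt_nonneg (2 * R)
  have hX00 : (0 : ℝ) ≤ X0 := Nat.cast_nonneg X0
  refine ⟨(X0 : ℝ) * X0 + 1 + 4 * R + 2 * (R * (C1 * (1 + Real.sqrt (2 * R)))), by positivity, fun V W hV hW => ?_⟩
  have hV1 : (1 : ℝ) ≤ V := by exact_mod_cast hV
  have hW1 : (1 : ℝ) ≤ W := by exact_mod_cast hW
  have hVW1 : (1 : ℝ) ≤ (V : ℝ) * W := by nlinarith
  have hVW0 : (0 : ℝ) < (V : ℝ) * W := by linarith
  have hZ1 : 1 ≤ ((V : ℝ) * W) ^ (1 / A + ε) := one_le_rpow hVW1 (by positivity)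
  have hexp : ∀ e : ℝ, e ≤ 1 / A + ε → ((V : ℝ) * W) ^ e ≤ ((V : ℝ) * W) ^ (1 / A + ε) := fun e he =>
    rpow_le_rpow_of_exponent_le hVW1 he
  obtain ⟨M, hM⟩ : ∃ M : ℕ, M = max V W := ⟨_, rfl⟩
  have hVM : V ≤ M := by rw [hM]; exact le_max_left _ _
  have hWM : W ≤ M := by rw [hM]; exact le_max_right _ _
  have hM1 : 1 ≤ M := hV.trans hVM
  have hMr : (1 : ℝ) ≤ M := by exact_mod_cast hM1
  have hMVW : (M : ℝ) ≤ (V : ℝ) * W := by
    rcases le_total V W with h | h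
    · rw [hM, max_eq_right h]; nlinarith
    · rw [hM, max_eq_left h]; nlinarith
  rcases lt_or_ge M X0 with hsm | hlg
  · have h1 : ((Icc 1 V ×ˢ Icc 1 W).filter (fun a => BadPair A a.1 a.2)).card ≤ V * W := by
      refine (card_filter_le _ _).trans ?_
      rw [card_product, Nat.card_Icc, Nat.card_Icc]
      simp
    have h2 : V * W ≤ X0 * X0 := Nat.mul_le_mul (hVM.trans hsm.le) (hWM.trans hsm.le)
    have h3 : (((Icc 1 V ×ˢ Icc 1 W).filter (fun a => BadPair A a.1 a.2)).card : ℝ) ≤ (X0 : ℝ) * X0 := by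
      exact_mod_cast h1.trans h2
    have h4 : 0 ≤ 1 + 4 * R + 2 * (R * (C1 * (1 + Real.sqrt (2 * R)))) := by positivity
    nlinarith [mul_nonneg hX00 hX00]
  · obtain ⟨c1, c2⟩ := hx0 M (hX0.trans (by exact_mod_cast hlg))
    obtain ⟨x, hxdef⟩ : ∃ x : ℕ, x = M * M := ⟨_, rfl⟩
    have hlogx : log (x : ℝ) = 2 * log M := by
      rw [hxdef]
      push_cast
      rw [log_mul (by positivity) (by positivity)]
      ring
    have hlogM : 0 ≤ log (M : ℝ) := log_nonneg hMr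
    have hMx : M ≤ x := by rw [hxdef]; exact Nat.le_mul_self M
    have hVx : V ≤ x := hVM.trans hMx
    have hWx : W ≤ x := hWM.trans hMx
    have hVWx : V * W ≤ x := by rw [hxdef]; exact Nat.mul_le_mul hVM hWM
    have hVVx : V * V ≤ x := by rw [hxdef]; exact Nat.mul_le_mul hVM hVM
    have hWWx : W * W ≤ x := by rw [hxdef]; exact Nat.mul_le_mul hWM hWM
    have hl1 : (log (x : ℝ)) ^ A' ≤ (η * log M) ^ A := by rw [hlogx]; exact c1
    obtain ⟨Y, hY⟩ : ∃ Y : ℕ, Y = ⌊(M : ℝ) ^ η⌋₊ := ⟨_, rfl⟩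
    have hcover : (Icc 1 V ×ˢ Icc 1 W).filter (fun a => BadPair A a.1 a.2) ⊆ (Icc 1 Y ×ˢ Icc 1 Y) ∪
        (((Dq A' x).filter (fun m => m ≤ V * W ∧ m.primeFactors.card ≤ 2)).biUnion
        (fun m => m.primeFactors ×ˢ m.primeFactors) ∪
      (((Dq A' x).filter (fun m => m ≤ W ∧ m.Prime ∧ m ≠ 2)).biUnion
        (fun q => Slice (opr ⌊(log x) ^ A'⌋₊) V q ×ˢ {q}) ∪
      ((Dq A' x).filter (fun m => m ≤ V ∧ m.Prime ∧ m ≠ 2)).biUnion
        (fun p => {p} ×ˢ Slice (opr ⌊(log x) ^ A'⌋₊) W p))) := by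
      rintro ⟨p, q⟩ ha
      rw [mem_filter, mem_product, mem_Icc, mem_Icc] at ha
      obtain ⟨⟨⟨hp1, hpV⟩, hq1, hqW⟩, hb⟩ := ha
      rw [mem_union]
      rcases le_or_gt ((max p q : ℕ) : ℝ) ((M : ℝ) ^ η) with h | h
      · left
        have h1 : max p q ≤ Y := by rw [hY]; exact Nat.le_floor h
        rw [mem_product, mem_Icc, mem_Icc]
        exact ⟨⟨hp1, (le_max_left _ _).trans h1⟩, hq1, (le_max_right _ _).trans h1⟩
      · right
        have h1 : η * log (M : ℝ) ≤ log (max p q : ℕ) := by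
          have h2 := log_le_log (by positivity) h.le
          rwa [log_rpow (by linarith)] at h2
        have h3 : (η * log (M : ℝ)) ^ A ≤ (log (max p q : ℕ)) ^ A := rpow_le_rpow (by positivity) h1 hA0.le
        exact cover_pairs hb hpV hqW hVWx hVx hWx (hl1.trans h3) (c2.trans h3)
    have hcard := (card_le_card hcover).trans ((card_union_le _ _).trans (Nat.add_le_add_left
      ((card_union_le _ _).trans (Nat.add_le_add_left (card_union_le _ _) _)) _))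
    have p0 : ((Icc 1 Y ×ˢ Icc 1 Y).card : ℝ) ≤ ((V : ℝ) * W) ^ (1 / A + ε) := by
      rw [card_product, Nat.card_Icc, Nat.add_sub_cancel]
      push_cast
      have h1 : (Y : ℝ) ≤ (M : ℝ) ^ η := by rw [hY]; exact Nat.floor_le (by positivity)
      have h2 : (Y : ℝ) * Y ≤ (M : ℝ) ^ (1 / A) := by
        rw [← hη2, two_mul, rpow_add (by linarith)]
        exact mul_le_mul h1 h1 (Nat.cast_nonneg _) (by positivity)
      refine h2.trans ((rpow_le_rpow (by positivity) hMVW hAi.le).trans (hexp _ (by linarith)))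
    have p2 : (((((Dq A' x).filter (fun m => m ≤ V * W ∧ m.primeFactors.card ≤ 2)).biUnion
        (fun m => m.primeFactors ×ˢ m.primeFactors))).card : ℝ) ≤ 4 * R * ((V : ℝ) * W) ^ (1 / A + ε) := by
      have h1 : (((Dq A' x).filter (fun m => m ≤ V * W ∧ m.primeFactors.card ≤ 2)).biUnion
        (fun m => m.primeFactors ×ˢ m.primeFactors)).card ≤ ((Dq A' x).filter (fun m => m ≤ V * W)).card * 4 := by
        refine card_biUnion_le.trans ?_
        refine (sum_le_card_nsmul _ _ 4 fun m hm => ?_).trans ?_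
        · rw [card_product]
          have := (mem_filter.mp hm).2.2
          nlinarith
        · rw [smul_eq_mul]
          apply Nat.mul_le_mul_right
          apply card_le_card
          intro m hm
          rw [mem_filter] at hm ⊢
          exact ⟨hm.1, hm.2.1⟩
      have h2 := hrank' x (V * W) (Nat.mul_pos hV hW) hVWx
      have h3 : ((V * W : ℕ) : ℝ) ^ σ ≤ ((V : ℝ) * W) ^ (1 / A + ε) := by
        push_cast
        apply hexp
        rw [hσ]; linarith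
      have h4 : (((((Dq A' x).filter (fun m => m ≤ V * W ∧ m.primeFactors.card ≤ 2)).biUnion
        (fun m => m.primeFactors ×ˢ m.primeFactors))).card : ℝ) ≤
          (((Dq A' x).filter (fun m => m ≤ V * W)).card : ℝ) * 4 := by
        exact_mod_cast h1
      have h5 := mul_le_mul_of_nonneg_left h3 hR.le
      linarith
    have gen : ∀ U U' : ℕ, 1 ≤ U → 1 ≤ U' → U * U ≤ x → U' ≤ x → (U : ℝ) * U' = (V : ℝ) * W →
        ∀ G : ℕ → Finset (ℕ × ℕ), (∀ q, (G q).card = (Slice (opr ⌊(log (x : ℝ)) ^ A'⌋₊) U q).card) →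
        (((((Dq A' x).filter (fun m => m ≤ U' ∧ m.Prime ∧ m ≠ 2)).biUnion G)).card : ℝ) ≤
          R * (C1 * (1 + Real.sqrt (2 * R))) * ((V : ℝ) * W) ^ (1 / A + ε) := by
      intro U U' hU hU' hUUx hU'x hUU' G hG
      have hU1 : (1 : ℝ) ≤ U := by exact_mod_cast hU
      have hU'1 : (1 : ℝ) ≤ U' := by exact_mod_cast hU'
      obtain ⟨B, hB⟩ : ∃ B : ℝ, B = C1 * (U : ℝ) ^ δ * ((1 + Real.sqrt (2 * R)) * (U : ℝ) ^ σ) := ⟨_, rfl⟩
      have hB0 : 0 ≤ B := by rw [hB]; positivity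
      have h1 : ∀ q ∈ (Dq A' x).filter (fun m => m ≤ U' ∧ m.Prime ∧ m ≠ 2), ((G q).card : ℝ) ≤ B := by
        intro q hq
        rw [mem_filter] at hq
        rw [hG, hB]
        refine (slice_card hR.le hσ0.le (hrank' x) hU hUUx hq.2.2.1 hq.2.2.2).trans ?_
        exact mul_le_mul_of_nonneg_right (hlogd U hU) (by positivity)
      have h3 : (((((Dq A' x).filter (fun m => m ≤ U' ∧ m.Prime ∧ m ≠ 2)).biUnion G)).card : ℝ) ≤
          ∑ q ∈ (Dq A' x).filter (fun m => m ≤ U' ∧ m.Prime ∧ m ≠ 2), ((G q).card : ℝ) := by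
        exact_mod_cast card_biUnion_le
      have h4 : ∑ q ∈ (Dq A' x).filter (fun m => m ≤ U' ∧ m.Prime ∧ m ≠ 2), ((G q).card : ℝ) ≤
          (((Dq A' x).filter (fun m => m ≤ U')).card : ℝ) * B := by
        refine (sum_le_sum h1).trans ?_
        rw [sum_const, nsmul_eq_mul]
        apply mul_le_mul_of_nonneg_right _ hB0
        have h5 : ((Dq A' x).filter (fun m => m ≤ U' ∧ m.Prime ∧ m ≠ 2)) ⊆ (Dq A' x).filter (fun m => m ≤ U') := by
          intro m hm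
          rw [mem_filter] at hm ⊢
          exact ⟨hm.1, hm.2.1⟩
        exact_mod_cast card_le_card h5
      have h6 := hrank' x U' hU' hU'x
      have h7 : (((Dq A' x).filter (fun m => m ≤ U')).card : ℝ) * B ≤ R * (U' : ℝ) ^ σ * B :=
        mul_le_mul_of_nonneg_right h6 hB0
      refine h3.trans (h4.trans (h7.trans ?_))
      have e : R * (U' : ℝ) ^ σ * B = R * (C1 * (1 + Real.sqrt (2 * R))) * ((U : ℝ) ^ δ * ((U : ℝ) * U') ^ σ) := by
        rw [hB, mul_rpow (by linarith) (by linarith)]; ring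
      rw [e, hUU']
      apply mul_le_mul_of_nonneg_left _ (by positivity)
      have h8 : (U : ℝ) ^ δ ≤ ((V : ℝ) * W) ^ δ := by
        apply rpow_le_rpow (by linarith) _ hδ0.le
        rw [← hUU']
        nlinarith
      refine (mul_le_mul_of_nonneg_right h8 (by positivity)).trans ?_
      rw [← rpow_add hVW0]
      apply hexp
      rw [hσ]; linarith
    have p3 := gen V W hV hW hVVx hWx rfl (fun q => Slice (opr ⌊(log (x : ℝ)) ^ A'⌋₊) V q ×ˢ {q})
      (fun q => by rw [card_product, card_singleton, mul_one])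
    have p4 := gen W V hW hV hWWx hVx (mul_comm _ _) (fun p => {p} ×ˢ Slice (opr ⌊(log (x : ℝ)) ^ A'⌋₊) W p)
      (fun q => by rw [card_product, card_singleton, one_mul])
    have h9 : (((Icc 1 V ×ˢ Icc 1 W).filter (fun a => BadPair A a.1 a.2)).card : ℝ) ≤
        ((Icc 1 Y ×ˢ Icc 1 Y).card : ℝ) + ((((((Dq A' x).filter (fun m => m ≤ V * W ∧ m.primeFactors.card ≤ 2)).biUnion
        (fun m => m.primeFactors ×ˢ m.primeFactors))).card : ℝ) +
        (((((Dq A' x).filter (fun m => m ≤ W ∧ m.Prime ∧ m ≠ 2)).biUnion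
        (fun q => Slice (opr ⌊(log (x : ℝ)) ^ A'⌋₊) V q ×ˢ {q})).card : ℝ) +
        (((((Dq A' x).filter (fun m => m ≤ V ∧ m.Prime ∧ m ≠ 2)).biUnion
        (fun p => {p} ×ˢ Slice (opr ⌊(log (x : ℝ)) ^ A'⌋₊) W p)).card : ℝ)))) := by
      exact_mod_cast hcard
    nlinarith [mul_nonneg hX00 hX00]

end Pool.Agent.X244.SPP
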